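import Mathlib
import Pool.Agent.X189.BS.Stm

/-! Part K of the project BS (MP_4f027a_co): restriction of the coefficients to an interval of
wires. -/

namespace Pool.Agent.X72.BSK

open Equiv Pool.Agent.X189.BS

variable {n : ℕ}

theorem C_append_single (q : ℤ) (P : List (Fin (n + 1) × Fin (n + 1)))
    (e : Fin (n + 1) × Fin (n + 1)) : C q (P ++ [e]) = cstep q (C q P) e := by
  simp [C, List.foldl_append]

theorem val_prefix {a c : Fin (n + 1)} {P T : List (Fin (n + 1) × Fin (n + 1))}
    (h : Val a c (P ++ T)) : Val a c P := by
  intro P' e S hP
  exact h P' e (S ++ T) (by rw [hP]; simp)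

theorem cstep_ne_zero {q : ℤ} {f : Perm (Fin (n + 1)) → ℤ} {e : Fin (n + 1) × Fin (n + 1)}
    {g : Perm (Fin (n + 1))} (h : cstep q f e g ≠ 0) : f g ≠ 0 ∨ f (swap e.1 e.2 * g) ≠ 0 := by
  by_contra hc
  push Not at hc
  apply h
  unfold cstep
  rw [hc.1, hc.2]
  simp

theorem supp_top (q : ℤ) {a c : Fin (n + 1)} : ∀ (M : List (Fin (n + 1) × Fin (n + 1))),
    Val a c M → ∀ g : Perm (Fin (n + 1)), C q M g ≠ 0 → g c = c ∨ (g c, c) ∈ M := by
  intro M
  induction M using List.reverseRecOn with
  | nil =>
    intro _ g hg
    left
    by_cases h1 : g = 1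
    · rw [h1]; rfl
    · exact absurd (by simp [C, h1]) hg
  | append_singleton P e ih =>
    intro hV g hg
    rw [C_append_single] at hg
    obtain ⟨hax, hxy, hyc, hnot, htop, hbot, hmid⟩ := hV P e [] rfl
    have hVP := val_prefix hV
    rcases cstep_ne_zero hg with h | h
    · rcases ih hVP g h with h1 | h1
      · exact Or.inl h1
      · right
        simp [h1]
    · have hgc : g c = swap e.1 e.2 ((swap e.1 e.2 * g) c) := by
        simp
      rcases ih hVP _ h with h1 | h1
      · rw [h1] at hgc
        by_cases hyc' : e.2 = c
        · right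
          rw [hgc, ← hyc', swap_apply_right]
          simp
        · left
          rw [hgc]
          apply swap_apply_of_ne_of_ne
          · intro hh
            exact absurd hyc (by rw [hh]; exact not_le.2 hxy)
          · exact fun hh => hyc' hh.symm
      · generalize hz : (swap e.1 e.2 * g) c = z at h1 hgc
        have hzc : z < c := by
          obtain ⟨P1, P2, hP12⟩ := List.append_of_mem h1
          exact (hVP P1 (z, c) P2 hP12).2.1
        by_cases hzx : z = e.1
        · rw [hzx, swap_apply_left] at hgc
          by_cases hyc' : e.2 = c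
          · left
            rw [hgc, hyc']
          · right
            rw [hgc]
            have := (htop c (lt_of_le_of_ne hyc hyc') le_rfl).2 (by rw [← hzx]; exact h1)
            simp [this]
        · by_cases hzy : z = e.2
          · rw [hzy, swap_apply_right] at hgc
            right
            rw [hgc]
            have := (htop c (by rw [← hzy]; exact hzc) le_rfl).1 (by rw [← hzy]; exact h1)
            simp [this]
          · rw [swap_apply_of_ne_of_ne hzx hzy] at hgc
            right
            rw [hgc]
            simp [h1]

theorem supp_bot (q : ℤ) {a c : Fin (n + 1)} : ∀ (M : List (Fin (n + 1) × Fin (n + 1))),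
    Val a c M → ∀ g : Perm (Fin (n + 1)), C q M g ≠ 0 → g a = a ∨ (a, g a) ∈ M := by
  intro M
  induction M using List.reverseRecOn with
  | nil =>
    intro _ g hg
    left
    by_cases h1 : g = 1
    · rw [h1]; rfl
    · exact absurd (by simp [C, h1]) hg
  | append_singleton P e ih =>
    intro hV g hg
    rw [C_append_single] at hg
    obtain ⟨hax, hxy, hyc, hnot, htop, hbot, hmid⟩ := hV P e [] rfl
    have hVP := val_prefix hV
    rcases cstep_ne_zero hg with h | h
    · rcases ih hVP g h with h1 | h1
      · exact Or.inl h1
      · right
        simp [h1]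
    · have hgc : g a = swap e.1 e.2 ((swap e.1 e.2 * g) a) := by
        simp
      rcases ih hVP _ h with h1 | h1
      · rw [h1] at hgc
        by_cases hxa : e.1 = a
        · right
          rw [hgc, ← hxa, swap_apply_left]
          simp
        · left
          rw [hgc]
          apply swap_apply_of_ne_of_ne
          · exact fun hh => hxa hh.symm
          · intro hh
            exact absurd hax (by rw [hh]; exact not_le.2 hxy)
      · generalize hz : (swap e.1 e.2 * g) a = z at h1 hgc
        have hza : a < z := by
          obtain ⟨P1, P2, hP12⟩ := List.append_of_mem h1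
          exact (hVP P1 (a, z) P2 hP12).2.1
        by_cases hzy : z = e.2
        · rw [hzy, swap_apply_right] at hgc
          by_cases hxa : e.1 = a
          · left
            rw [hgc, hxa]
          · right
            rw [hgc]
            have := (hbot a le_rfl (lt_of_le_of_ne hax (Ne.symm hxa))).2
              (by rw [← hzy]; exact h1)
            simp [this]
        · by_cases hzx : z = e.1
          · rw [hzx, swap_apply_left] at hgc
            right
            rw [hgc]
            have := (hbot a le_rfl (by rw [← hzx]; exact hza)).1 (by rw [← hzx]; exact h1)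
            simp [this]
          · rw [swap_apply_of_ne_of_ne hzx hzy] at hgc
            right
            rw [hgc]
            simp [h1]

theorem top_step (q : ℤ) {a c : Fin (n + 1)} : ∀ (M : List (Fin (n + 1) × Fin (n + 1))),
    Val a c M → ∀ g : Perm (Fin (n + 1)), (∀ z, c ≤ z → g z = z) →
    C q M g = C q (M.filter fun e => e.2 ≠ c) g := by
  intro M
  induction M using List.reverseRecOn with
  | nil => intro _ g _; rfl
  | append_singleton P e ih =>
    intro hV g hg
    obtain ⟨hax, hxy, hyc, hnot, htop, hbot, hmid⟩ := hV P e [] rfl
    have hVP := val_prefix hV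
    rw [C_append_single, List.filter_append]
    by_cases hc : e.2 = c
    · have hf : ([e] : List (Fin (n + 1) × Fin (n + 1))).filter (fun e => e.2 ≠ c) = [] := by
        simp [hc]
      rw [hf, List.append_nil, ← ih hVP g hg]
      have hsc : g.symm c = c := by
        rw [Equiv.symm_apply_eq]
        exact (hg c le_rfl).symm
      have hcond : ¬ g.symm e.2 < g.symm e.1 := by
        rw [hc, hsc]
        intro hlt
        have h1 := hg _ hlt.le
        rw [Equiv.apply_symm_apply] at h1
        rw [← h1, ← hc] at hlt
        exact absurd hlt (not_lt.2 hxy.le)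
      have hzero : C q P (swap e.1 e.2 * g) = 0 := by
        by_contra hne
        have hval : (swap e.1 e.2 * g) c = e.1 := by
          rw [Perm.mul_apply, hg c le_rfl, ← hc, swap_apply_right]
        rcases supp_top q P hVP _ hne with h1 | h1
        · rw [hval] at h1
          rw [← hc] at h1
          exact absurd h1 hxy.ne
        · rw [hval, ← hc] at h1
          exact hnot h1
      unfold cstep
      rw [if_neg hcond, hzero]
      simp
    · have hf : ([e] : List (Fin (n + 1) × Fin (n + 1))).filter (fun e => e.2 ≠ c) = [e] := by
        simp [hc]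
      rw [hf, C_append_single]
      have hylt : e.2 < c := lt_of_le_of_ne hyc hc
      have hg' : ∀ z, c ≤ z → (swap e.1 e.2 * g) z = z := by
        intro z hz
        rw [Perm.mul_apply, hg z hz]
        apply swap_apply_of_ne_of_ne
        · exact ((hxy.trans hylt).trans_le hz).ne'
        · exact (hylt.trans_le hz).ne'
      unfold cstep
      rw [ih hVP g hg, ih hVP _ hg']

theorem bot_step (q : ℤ) {a c : Fin (n + 1)} : ∀ (M : List (Fin (n + 1) × Fin (n + 1))),
    Val a c M → ∀ g : Perm (Fin (n + 1)), (∀ z, z ≤ a → g z = z) →
    C q M g = C q (M.filter fun e => e.1 ≠ a) g := by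
  intro M
  induction M using List.reverseRecOn with
  | nil => intro _ g _; rfl
  | append_singleton P e ih =>
    intro hV g hg
    obtain ⟨hax, hxy, hyc, hnot, htop, hbot, hmid⟩ := hV P e [] rfl
    have hVP := val_prefix hV
    rw [C_append_single, List.filter_append]
    by_cases hc : e.1 = a
    · have hf : ([e] : List (Fin (n + 1) × Fin (n + 1))).filter (fun e => e.1 ≠ a) = [] := by
        simp [hc]
      rw [hf, List.append_nil, ← ih hVP g hg]
      have hsc : g.symm a = a := by
        rw [Equiv.symm_apply_eq]
        exact (hg a le_rfl).symm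
      have hcond : ¬ g.symm e.2 < g.symm e.1 := by
        rw [hc, hsc]
        intro hlt
        have h1 := hg _ hlt.le
        rw [Equiv.apply_symm_apply] at h1
        rw [← h1, ← hc] at hlt
        exact absurd hlt (not_lt.2 hxy.le)
      have hzero : C q P (swap e.1 e.2 * g) = 0 := by
        by_contra hne
        have hval : (swap e.1 e.2 * g) a = e.2 := by
          rw [Perm.mul_apply, hg a le_rfl, ← hc, swap_apply_left]
        rcases supp_bot q P hVP _ hne with h1 | h1
        · rw [hval] at h1
          rw [← hc] at h1
          exact absurd h1 hxy.ne'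
        · rw [hval, ← hc] at h1
          exact hnot h1
      unfold cstep
      rw [if_neg hcond, hzero]
      simp
    · have hf : ([e] : List (Fin (n + 1) × Fin (n + 1))).filter (fun e => e.1 ≠ a) = [e] := by
        simp [hc]
      rw [hf, C_append_single]
      have hylt : a < e.1 := lt_of_le_of_ne hax (Ne.symm hc)
      have hg' : ∀ z, z ≤ a → (swap e.1 e.2 * g) z = z := by
        intro z hz
        rw [Perm.mul_apply, hg z hz]
        apply swap_apply_of_ne_of_ne
        · exact (hz.trans_lt hylt).ne
        · exact (hz.trans_lt (hylt.trans hxy)).ne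
      unfold cstep
      rw [ih hVP g hg, ih hVP _ hg']

theorem t_K : S_K := by
  intro n q L a c hVal hlt g hg
  -- top
  have h1 : ∀ j : ℕ, ∀ c' : Fin (n + 1), c'.val = c.val + j →
      C q (res 0 c' L) g = C q (res 0 c L) g := by
    intro j
    induction j with
    | zero =>
      intro c' hc'
      have : c' = c := Fin.ext (by simpa using hc')
      rw [this]
    | succ j ih =>
      intro c' hc'
      have hlt' : c.val + j < n + 1 := by
        have := c'.isLt
        omega
      rw [top_step q (res 0 c' L) (hVal 0 c') g (fun z hz => hg z (Or.inr (by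
        rw [Fin.lt_def]; rw [Fin.le_def] at hz; omega)))]
      rw [← ih ⟨c.val + j, hlt'⟩ rfl]
      congr 1
      unfold res
      rw [List.filter_filter]
      congr 1
      funext e
      have hle : (e.2 ≠ c' ∧ ((0 : Fin (n + 1)) ≤ e.1 ∧ e.2 ≤ c')) ↔
          ((0 : Fin (n + 1)) ≤ e.1 ∧ e.2 ≤ (⟨c.val + j, hlt'⟩ : Fin (n + 1))) := by
        simp only [Fin.le_def, ne_eq, Fin.ext_iff]
        constructor
        · rintro ⟨h1, h2, h3⟩
          exact ⟨h2, by omega⟩
        · rintro ⟨h2, h3⟩
          refine ⟨by omega, h2, by omega⟩
      rw [← Bool.decide_and]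
      exact decide_eq_decide.2 hle
  have h2 : ∀ j : ℕ, ∀ a' : Fin (n + 1), a'.val + j = a.val →
      C q (res a' c L) g = C q (res a c L) g := by
    intro j
    induction j with
    | zero =>
      intro a' ha'
      have : a' = a := Fin.ext (by simpa using ha')
      rw [this]
    | succ j ih =>
      intro a' ha'
      have hlt' : a'.val + 1 < n + 1 := by
        have := a.isLt
        omega
      rw [bot_step q (res a' c L) (hVal a' c) g (fun z hz => hg z (Or.inl (by
        rw [Fin.lt_def]; rw [Fin.le_def] at hz; omega)))]
      rw [← ih ⟨a'.val + 1, hlt'⟩ (by simp only; omega)]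
      congr 1
      unfold res
      rw [List.filter_filter]
      congr 1
      funext e
      have hle : (e.1 ≠ a' ∧ (a' ≤ e.1 ∧ e.2 ≤ c)) ↔
          ((⟨a'.val + 1, hlt'⟩ : Fin (n + 1)) ≤ e.1 ∧ e.2 ≤ c) := by
        simp only [Fin.le_def, ne_eq, Fin.ext_iff]
        constructor
        · rintro ⟨h1, h2, h3⟩
          exact ⟨by omega, h3⟩
        · rintro ⟨h2, h3⟩
          refine ⟨by omega, by omega, h3⟩
      rw [← Bool.decide_and]
      exact decide_eq_decide.2 hle
  have h3 : res 0 (Fin.last n) L = L := by
    unfold res
    rw [List.filter_eq_self]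
    intro e _
    simp [Fin.le_last]
  calc C q L g = C q (res 0 (Fin.last n) L) g := by rw [h3]
    _ = C q (res 0 c L) g := h1 (n - c.val) (Fin.last n) (by
        have := c.isLt
        simp only [Fin.val_last]
        omega)
    _ = C q (res a c L) g := h2 a.val 0 (by simp)

end Pool.Agent.X72.BSK
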